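import Pool.Agent.Run7.h81.Hollow.Star

set_option autoImplicit false

open MeasureTheory Set Filter Topology
open scoped ENNReal Pointwise

namespace Run7.h81.Hollow

open Pool.Agent.H283R3.Newt

/-- if the potential is constant on a ball then a nonnegative density vanishes there -/
lemma zero_of_const {R : ℝ} (hR : 0 < R) {τ : E3 → ℝ} (hτ : Good R τ) (hnn : ∀ y, 0 ≤ τ y)
    {c r : ℝ} (hr : 0 < r) {x : E3} (hconst : ∀ z ∈ Metric.ball x r, V τ z = c) :
    ∀ᵐ y, y ∈ Metric.ball x r → τ y = 0 := by
  have h1 := hτ.mean_diff hR hr x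
  have hvb := vb_pos hr
  have h2 : ∫ z in Metric.ball x r, V τ z = vb r * c := by
    rw [setIntegral_congr_fun (g := fun _ => c) Metric.isOpen_ball.measurableSet
      (fun z hz => hconst z hz), setIntegral_const, smul_eq_mul, Measure.real, vol_ball hr,
      ENNReal.toReal_ofReal hvb.le]
  rw [h2, hconst x (Metric.mem_ball_self hr), mul_div_cancel_left₀ _ hvb.ne', sub_self] at h1
  have hm : Measurable fun y : E3 => Nn r (dist x y) := by
    unfold Nn
    apply Measurable.ite (measurableSet_lt (by fun_prop) (by fun_prop)) <;> fun_prop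
  have hi : Integrable (fun y => τ y * kr r (dist x y)) := by
    apply hτ.int_mul hR
    unfold kr
    apply Integrable.sub (kern_int hR 0 x)
    apply Integrable.div_const
    refine Integrable.mono' (g := fun _ => 2 * Real.pi * r ^ 2)
      (integrableOn_const measure_ball_lt_top.ne) hm.aestronglyMeasurable (ae_of_all _ fun y => ?_)
    rw [Real.norm_eq_abs, abs_of_nonneg (Nn_nonneg hr dist_nonneg)]
    exact Nn_le hr dist_nonneg
  have hne : ∀ᵐ y : E3, y ≠ x := by simp [ae_iff]
  have h3 := (integral_eq_zero_iff_of_nonneg_ae (by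
    filter_upwards [hne] with y hy
    exact mul_nonneg (hnn y) (kr_nonneg hr (dist_pos.2 hy.symm))) hi).1 h1.symm
  filter_upwards [h3, hne] with y hy hyx hyb
  have h4 : 0 < kr r (dist x y) := kr_pos (dist_pos.2 hyx.symm) (by rw [dist_comm]; exact hyb)
  have h5 : τ y * kr r (dist x y) = 0 := hy
  exact (mul_eq_zero.1 h5).resolve_right h4.ne'

theorem coin {U : Set E3} {R : ℝ} (hR : 0 < R) (hUo : IsOpen U) (hUR : U ⊆ Metric.ball 0 R)
    (hUd : Down U) {c : ℝ} (hc : 0 < c) (h0 : c < V (U.indicator 1) 0)
    (hoff : ∀ x, x ∉ U → V (U.indicator 1) x < c) :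
    ∃ T : Set E3, IsOpen T ∧ Down T ∧ (0:E3) ∈ T ∧ closure T ⊆ U ∧
      ∀ P ∈ T, ∫ M in U \ closure T, (dist P M)⁻¹ = c := by
  have hUm := hUo.measurableSet
  obtain ⟨τ, hτ, hmin⟩ := exists_min hR hUm hUR hc.le
  have hτg := hτ.good hUR
  have hcont := hτg.V_cont hR
  have hUD : Dens U (U.indicator 1) :=
    ⟨measurable_one.indicator hUm, fun y => by apply indicator_nonneg; intro _ _; exact zero_le_one,
      fun y => le_refl _⟩
  have hlt := el_lt hR hUm hUR hτ hmin
  have hgt := el_gt hR hUR hτ hmin
  have hVc : ∀ x, V τ x ≤ c := by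
    intro x
    apply mp hR hτg isOpen_univ hc.le _ _ x (mem_univ x)
    · intro z _ hz
      exact absurd (mem_univ z) hz
    · filter_upwards [hgt] with y hy _ hy2
      exact (hy hy2).le
  have hVU : ∀ x, V τ x ≤ V (U.indicator 1) x := by
    intro x
    unfold V
    apply integral_mono (hτg.int_kern hR x) ((hUD.good hUR).int_kern hR x)
    intro y
    exact mul_le_mul_of_nonneg_right (hτ.le y) (inv_nonneg.2 dist_nonneg)
  have hcmp : ∀ x y : E3, (∀ i, |y i| ≤ |x i|) → V τ x ≤ V τ y := fun x y hxy =>
    compare_all hR hUm hUR hτ hmin hVc hUd hxy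
  set S : Set E3 := {x | V τ x = c} with hS
  have hSc : IsClosed S := isClosed_eq hcont continuous_const
  have hSd : Down S := by
    intro x y hx hxy
    have h1 : V τ x = c := hx
    have h2 := hcmp x y hxy
    exact le_antisymm (hVc y) (by rw [← h1]; exact h2)
  have hSU : S ⊆ U := by
    intro x hx
    by_contra h
    have h1 : V τ x = c := hx
    have h2 := hVU x
    have h3 := hoff x h
    linarith
  have hSfin : volume S ≠ ∞ := ((measure_mono hSU).trans_lt (vol_ne_top hUR).lt_top).ne
  have hnull := hSd.null hSfin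
  set T : Set E3 := interior S with hT
  have hTS : T ⊆ S := interior_subset
  have hclTS : closure T ⊆ S := closure_minimal hTS hSc
  -- the density vanishes on T
  have hzero : ∀ᵐ y, y ∈ T → τ y = 0 := by
    rw [ae_iff]
    apply measure_null_of_locally_null
    intro x hx
    simp only [mem_ofPred_eq, Classical.not_imp] at hx
    obtain ⟨r, hr, hball⟩ := Metric.isOpen_iff.1 isOpen_interior x hx.1
    have h1 := zero_of_const hR hτg hτ.nonneg hr (fun z hz => (hTS (hball hz) : V τ z = c))
    refine ⟨{y | ¬(y ∈ T → τ y = 0)} ∩ Metric.ball x r,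
      inter_mem_nhdsWithin _ (Metric.ball_mem_nhds x hr), ?_⟩
    refine measure_mono_null ?_ h1
    rintro y ⟨hy1, hy2⟩ hy3
    apply hy1
    intro _
    exact hy3 hy2
  have hST : ∀ᵐ y, y ∉ S \ T := measure_eq_zero_iff_ae_notMem.1 hnull
  -- the density is the indicator
  have hind : ∀ᵐ y, τ y = (U \ closure T).indicator 1 y := by
    filter_upwards [hzero, hST, hlt] with y h1 h2 h3
    by_cases hyU : y ∈ U
    · by_cases hyS : y ∈ S
      · have hyT : y ∈ T := by
          by_contra h
          exact h2 ⟨hyS, h⟩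
        rw [h1 hyT, indicator_of_notMem]
        intro h
        exact h.2 (subset_closure hyT)
      · have h4 : V τ y < c := lt_of_le_of_ne (hVc y) hyS
        rw [h3 hyU h4, indicator_of_mem]
        · rfl
        · exact ⟨hyU, fun h => hyS (hclTS h)⟩
    · rw [hτ.zero hyU, indicator_of_notMem]
      exact fun h => hyU h.1
  have hVT : ∀ P, V τ P = ∫ M in U \ closure T, (dist P M)⁻¹ := by
    intro P
    rw [← integral_indicator (hUm.diff isClosed_closure.measurableSet)]
    unfold V
    apply integral_congr_ae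
    filter_upwards [hind] with y hy
    rw [hy]
    by_cases h : y ∈ U \ closure T
    · rw [indicator_of_mem h, indicator_of_mem h]; simp
    · rw [indicator_of_notMem h, indicator_of_notMem h]; simp
  have hTne : T.Nonempty := by
    by_contra hemp
    rw [not_nonempty_iff_eq_empty] at hemp
    have h1 : V τ 0 = V (U.indicator 1) 0 := by
      unfold V
      apply integral_congr_ae
      filter_upwards [hind] with y hy
      rw [hy, hemp, closure_empty, sdiff_empty]
    have h2 := hVc 0
    linarith
  refine ⟨T, isOpen_interior, hSd.interior, hSd.interior.zero_mem hTne, hclTS.trans hSU, fun P hP => ?_⟩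
  rw [← hVT]
  exact hTS hP

end Run7.h81.Hollow
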