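import Pool.Agent.Run7.h81.Hollow.Refl

set_option autoImplicit false

open MeasureTheory Set Filter Topology
open scoped ENNReal Pointwise

namespace Run7.h81.Hollow

open Pool.Agent.H283R3.Newt

/-- down-closed in every `|x i|` -/
def Down (S : Set E3) : Prop := ∀ x y : E3, x ∈ S → (∀ i, |y i| ≤ |x i|) → y ∈ S

lemma box_open (x : E3) : IsOpen {y : E3 | ∀ i, |y i| < |x i|} := by
  have : {y : E3 | ∀ i, |y i| < |x i|} = ⋂ i, {y : E3 | |y i| < |x i|} := by
    ext y; simp
  rw [this]
  exact isOpen_iInter_of_finite fun i => isOpen_lt (by fun_prop) continuous_const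

lemma Down.box {S : Set E3} (hS : Down S) {x y : E3} (hx : x ∈ S) (hy : ∀ i, |y i| < |x i|) :
    y ∈ interior S := by
  apply interior_maximal (s := S) (t := {y : E3 | ∀ i, |y i| < |x i|}) _ (box_open x) hy
  intro z hz
  exact hS x z hx fun i => (hz i).le

lemma exists_bigger (x : E3) {ε : ℝ} (hε : 0 < ε) :
    ∃ x' : E3, x' ∈ Metric.ball x ε ∧ ∀ i, |x i| < |x' i| := by
  set v : E3 := WithLp.toLp 2 (fun i => if 0 ≤ x i then ε / 4 else -(ε / 4)) with hv
  refine ⟨x + v, ?_, fun i => ?_⟩
  · rw [Metric.mem_ball, dist_eq_norm, add_sub_cancel_left]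
    have h1 : ‖v‖ ^ 2 = 3 * (ε / 4) ^ 2 := by
      rw [EuclideanSpace.norm_sq_eq]
      have : ∀ i, ‖v i‖ ^ 2 = (ε / 4) ^ 2 := by
        intro i
        rw [Real.norm_eq_abs, sq_abs]
        show (if 0 ≤ x i then ε / 4 else -(ε / 4)) ^ 2 = _
        split_ifs <;> ring
      simp_rw [this]
      simp
    have h2 : ‖v‖ ^ 2 < ε ^ 2 := by rw [h1]; nlinarith
    exact lt_of_pow_lt_pow_left₀ 2 hε.le h2
  · have h1 : (x + v) i = x i + (if 0 ≤ x i then ε / 4 else -(ε / 4)) := rfl
    rw [h1]
    split_ifs with h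
    · rw [abs_of_nonneg h, abs_of_nonneg (by linarith)]
      linarith
    · push Not at h
      rw [abs_of_neg h, abs_of_neg (by linarith)]
      linarith

lemma Down.interior {S : Set E3} (hS : Down S) : Down (interior S) := by
  intro x y hx hxy
  obtain ⟨ε, hε, hball⟩ := Metric.isOpen_iff.1 isOpen_interior x hx
  obtain ⟨x', hx', hlt⟩ := exists_bigger x hε
  exact hS.box (interior_subset (hball hx')) fun i => (hxy i).trans_lt (hlt i)

lemma Down.zero_mem {S : Set E3} (hS : Down S) (hne : S.Nonempty) : (0 : E3) ∈ S := by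
  obtain ⟨x, hx⟩ := hne
  exact hS x 0 hx fun i => by simp

lemma Down.smul_mem {S : Set E3} (hS : Down S) {x : E3} (hx : x ∈ S) {t : ℝ} (ht0 : 0 ≤ t)
    (ht1 : t ≤ 1) : t • x ∈ S := by
  apply hS x _ hx
  intro i
  rw [PiLp.smul_apply, smul_eq_mul, abs_mul, abs_of_nonneg ht0]
  exact mul_le_of_le_one_left (abs_nonneg _) ht1

lemma coord_null (i : Fin 3) : volume {x : E3 | x i = 0} = 0 := by
  set s : Submodule ℝ E3 := LinearMap.ker (EuclideanSpace.proj (𝕜 := ℝ) i : E3 →L[ℝ] ℝ).toLinearMap with hs
  have h1 : ({x : E3 | x i = 0} : Set E3) = s := by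
    ext x
    rw [SetLike.mem_coe, hs, LinearMap.mem_ker]
    rfl
  rw [h1]
  apply Measure.addHaar_submodule
  intro h
  have h2 : (EuclideanSpace.single i 1 : E3) ∈ s := by rw [h]; trivial
  rw [← SetLike.mem_coe, ← h1] at h2
  have h3 : (EuclideanSpace.single i (1:ℝ) : E3) i = 0 := h2
  simp at h3

lemma Down.scale {S : Set E3} (hS : Down S) {s : ℝ} (hs : 1 < s) :
    S ⊆ (⋃ i, {x : E3 | x i = 0}) ∪ s • _root_.interior S := by
  intro x hx
  by_cases h : ∃ i, x i = 0
  · left
    obtain ⟨i, hi⟩ := h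
    exact mem_iUnion.2 ⟨i, hi⟩
  · right
    push Not at h
    refine ⟨s⁻¹ • x, hS.box hx fun i => ?_, ?_⟩
    · rw [PiLp.smul_apply, smul_eq_mul, abs_mul, abs_of_nonneg (by positivity)]
      have h1 : 0 < |x i| := abs_pos.2 (h i)
      have h2 : s⁻¹ < 1 := inv_lt_one_of_one_lt₀ hs
      nlinarith
    · show s • (s⁻¹ • x) = x
      rw [smul_smul, mul_inv_cancel₀ (by positivity), one_smul]

/-- a down-closed set of finite volume differs from its interior by a null set -/
lemma Down.null {S : Set E3} (hS : Down S) (hfin : volume S ≠ ∞) :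
    volume (S \ _root_.interior S) = 0 := by
  have hifin : volume (_root_.interior S) ≠ ∞ := ((measure_mono interior_subset).trans_lt hfin.lt_top).ne
  have h1 : ∀ s : ℝ, 1 < s → (volume S).toReal ≤ s ^ 3 * (volume (_root_.interior S)).toReal := by
    intro s hs
    have h2 : volume S ≤ ENNReal.ofReal (s ^ 3) * volume (_root_.interior S) := by
      calc volume S ≤ volume ((⋃ i, {x : E3 | x i = 0}) ∪ s • _root_.interior S) :=
            measure_mono (hS.scale hs)
        _ ≤ volume (⋃ i, {x : E3 | x i = 0}) + volume (s • _root_.interior S) := measure_union_le _ _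
        _ = ENNReal.ofReal (s ^ 3) * volume (_root_.interior S) := by
            rw [measure_iUnion_null coord_null, zero_add, Measure.addHaar_smul]
            rw [finrank_euclideanSpace, Fintype.card_fin, abs_of_nonneg (by positivity)]
    have h3 := ENNReal.toReal_mono (ENNReal.mul_ne_top ENNReal.ofReal_ne_top hifin) h2
    rwa [ENNReal.toReal_mul, ENNReal.toReal_ofReal (by positivity)] at h3
  have h2 : (volume S).toReal ≤ (volume (_root_.interior S)).toReal := by
    have ht : Tendsto (fun s : ℝ => s ^ 3 * (volume (_root_.interior S)).toReal) (𝓝[>] 1)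
        (𝓝 (1 ^ 3 * (volume (_root_.interior S)).toReal)) := by
      have : Continuous (fun s : ℝ => s ^ 3 * (volume (_root_.interior S)).toReal) := by fun_prop
      exact (this.tendsto 1).mono_left nhdsWithin_le_nhds
    rw [one_pow, one_mul] at ht
    apply ge_of_tendsto ht
    filter_upwards [self_mem_nhdsWithin] with s hs
    exact h1 s hs
  have h3 : volume S ≤ volume (_root_.interior S) := (ENNReal.toReal_le_toReal hfin hifin).1 h2
  rw [measure_sdiff interior_subset isOpen_interior.measurableSet.nullMeasurableSet hifin]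
  exact tsub_eq_zero_of_le h3

end Run7.h81.Hollow
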