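import Pool.Agent.Run7.h81.Hollow.Min

set_option autoImplicit false

open MeasureTheory Set Filter Topology
open scoped ENNReal

namespace Run7.h81.Hollow

open Pool.Agent.H283R3.Newt

/-- Euler–Lagrange conditions -/
theorem el_lt {U : Set E3} {R : ℝ} (hR : 0 < R) (hUm : MeasurableSet U)
    (hUR : U ⊆ Metric.ball 0 R) {c : ℝ} {τ : E3 → ℝ} (hτ : Dens U τ)
    (hmin : ∀ g, Dens U g → J c τ ≤ J c g) :
    ∀ᵐ x, x ∈ U → V τ x < c → τ x = 1 := by
  have hτg := hτ.good hUR
  set A : Set E3 := U ∩ {x | V τ x < c} with hA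
  have hAm : MeasurableSet A := hUm.inter (measurableSet_lt (hτg.V_cont hR).measurable measurable_const)
  classical
  set g : E3 → ℝ := A.piecewise (fun _ => 1) τ with hg
  have hgD : Dens U g := by
    refine ⟨Measurable.piecewise hAm measurable_const hτ.meas, fun y => ?_, fun y => ?_⟩
    · by_cases hy : y ∈ A
      · rw [hg, piecewise_eq_of_mem _ _ _ hy]; exact zero_le_one
      · rw [hg, piecewise_eq_of_notMem _ _ _ hy]; exact hτ.nonneg y
    · by_cases hy : y ∈ A
      · rw [hg, piecewise_eq_of_mem _ _ _ hy, indicator_of_mem hy.1]; simp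
      · rw [hg, piecewise_eq_of_notMem _ _ _ hy]; exact hτ.le y
  have h1 := first_var hR hUR hτ hmin hgD
  have hi : Integrable (fun x => (V τ x - c) * (g x - τ x)) := by
    have hd : Good R (fun y => g y - τ y) := by
      refine ⟨hgD.meas.sub hτ.meas, fun y => ?_⟩
      by_cases hy : y ∈ Metric.ball (0:E3) R
      · rw [indicator_of_mem hy, abs_le]
        have h1 := hgD.le_one y
        have h2 := hτ.le_one y
        have h3 := hgD.nonneg y
        have h4 := hτ.nonneg y
        simp only [Pi.one_apply]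
        constructor <;> linarith
      · rw [indicator_of_notMem hy, hgD.zero (fun h => hy (hUR h)), hτ.zero (fun h => hy (hUR h))]
        simp
    have h2 := (int_mul_V hR hd hτg).sub ((hd.integrable hR).const_mul c)
    refine h2.congr (ae_of_all _ fun x => ?_)
    simp only [Pi.sub_apply]
    ring
  have hnp : ∀ x, (V τ x - c) * (g x - τ x) ≤ 0 := by
    intro x
    by_cases hx : x ∈ A
    · have h2 : V τ x < c := hx.2
      have h3 : g x = 1 := by rw [hg, piecewise_eq_of_mem _ _ _ hx]
      have h4 := hτ.le_one x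
      rw [h3]
      nlinarith
    · have h3 : g x = τ x := by rw [hg, piecewise_eq_of_notMem _ _ _ hx]
      rw [h3]; simp
  have h2 : ∫ x, -((V τ x - c) * (g x - τ x)) = 0 := by
    rw [integral_neg]
    have h5 : ∫ x, (V τ x - c) * (g x - τ x) ≤ 0 := integral_nonpos hnp
    linarith
  have h3 := (integral_eq_zero_iff_of_nonneg (fun x => by
    have := hnp x
    show 0 ≤ -((V τ x - c) * (g x - τ x))
    linarith) hi.neg).1 h2
  filter_upwards [h3] with x hx hxU hxc
  have hxA : x ∈ A := ⟨hxU, hxc⟩
  have h4 : g x = 1 := by rw [hg, piecewise_eq_of_mem _ _ _ hxA]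
  have hx : (V τ x - c) * (g x - τ x) = 0 := by
    have h5 : -((V τ x - c) * (g x - τ x)) = 0 := hx
    linarith
  rw [h4, mul_eq_zero] at hx
  rcases hx with hx | hx
  · linarith
  · linarith

theorem el_gt {U : Set E3} {R : ℝ} (hR : 0 < R)
    (hUR : U ⊆ Metric.ball 0 R) {c : ℝ} {τ : E3 → ℝ} (hτ : Dens U τ)
    (hmin : ∀ g, Dens U g → J c τ ≤ J c g) :
    ∀ᵐ x, c < V τ x → τ x = 0 := by
  have hτg := hτ.good hUR
  set A : Set E3 := {x | c < V τ x} with hA
  have hAm : MeasurableSet A := measurableSet_lt measurable_const (hτg.V_cont hR).measurable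
  classical
  set g : E3 → ℝ := A.piecewise (fun _ => 0) τ with hg
  have hgD : Dens U g := by
    refine ⟨Measurable.piecewise hAm measurable_const hτ.meas, fun y => ?_, fun y => ?_⟩
    · by_cases hy : y ∈ A
      · rw [hg, piecewise_eq_of_mem _ _ _ hy]
      · rw [hg, piecewise_eq_of_notMem _ _ _ hy]; exact hτ.nonneg y
    · by_cases hy : y ∈ A
      · rw [hg, piecewise_eq_of_mem _ _ _ hy]
        apply indicator_nonneg; intro _ _; exact zero_le_one
      · rw [hg, piecewise_eq_of_notMem _ _ _ hy]; exact hτ.le y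
  have h1 := first_var hR hUR hτ hmin hgD
  have hi : Integrable (fun x => (V τ x - c) * (g x - τ x)) := by
    have hd : Good R (fun y => g y - τ y) := by
      refine ⟨hgD.meas.sub hτ.meas, fun y => ?_⟩
      by_cases hy : y ∈ Metric.ball (0:E3) R
      · rw [indicator_of_mem hy, abs_le]
        have h1 := hgD.le_one y
        have h2 := hτ.le_one y
        have h3 := hgD.nonneg y
        have h4 := hτ.nonneg y
        simp only [Pi.one_apply]
        constructor <;> linarith
      · rw [indicator_of_notMem hy, hgD.zero (fun h => hy (hUR h)), hτ.zero (fun h => hy (hUR h))]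
        simp
    have h2 := (int_mul_V hR hd hτg).sub ((hd.integrable hR).const_mul c)
    refine h2.congr (ae_of_all _ fun x => ?_)
    simp only [Pi.sub_apply]
    ring
  have hnp : ∀ x, (V τ x - c) * (g x - τ x) ≤ 0 := by
    intro x
    by_cases hx : x ∈ A
    · have h2 : c < V τ x := hx
      have h3 : g x = 0 := by rw [hg, piecewise_eq_of_mem _ _ _ hx]
      have h4 := hτ.nonneg x
      rw [h3]
      nlinarith
    · have h3 : g x = τ x := by rw [hg, piecewise_eq_of_notMem _ _ _ hx]
      rw [h3]; simp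
  have h2 : ∫ x, -((V τ x - c) * (g x - τ x)) = 0 := by
    rw [integral_neg]
    have h5 : ∫ x, (V τ x - c) * (g x - τ x) ≤ 0 := integral_nonpos hnp
    linarith
  have h3 := (integral_eq_zero_iff_of_nonneg (fun x => by
    have := hnp x
    show 0 ≤ -((V τ x - c) * (g x - τ x))
    linarith) hi.neg).1 h2
  filter_upwards [h3] with x hx hxc
  have hxA : x ∈ A := hxc
  have h4 : g x = 0 := by rw [hg, piecewise_eq_of_mem _ _ _ hxA]
  have hx : (V τ x - c) * (g x - τ x) = 0 := by
    have h5 : -((V τ x - c) * (g x - τ x)) = 0 := hx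
    linarith
  rw [h4, mul_eq_zero] at hx
  rcases hx with hx | hx
  · linarith
  · linarith

/-- maximum principle on an open set `H` -/
theorem mp {R : ℝ} (hR : 0 < R) {σ : E3 → ℝ} (hσ : Good R σ) {H : Set E3} (hH : IsOpen H)
    {a : ℝ} (ha : 0 ≤ a) (hbd : ∀ x ∈ closure H, x ∉ H → V σ x ≤ a)
    (hsub : ∀ᵐ y, y ∈ H → a < V σ y → σ y ≤ 0) : ∀ x ∈ H, V σ x ≤ a := by
  intro x1 hx1
  by_contra hcon
  push Not at hcon
  have hcont := hσ.V_cont hR
  set b := V σ x1 with hb
  have hb0 : 0 < b := lt_of_le_of_lt ha hcon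
  have hK : IsCompact ({x | b ≤ V σ x} ∩ closure H) := (hσ.compact_ge hR hb0).inter_right isClosed_closure
  obtain ⟨x0, hx0, hmax⟩ := hK.exists_isMaxOn ⟨x1, le_refl b, subset_closure hx1⟩ hcont.continuousOn
  set M := V σ x0 with hM
  have hbM : b ≤ M := hx0.1
  have hle : ∀ x ∈ closure H, V σ x ≤ M := by
    intro x hx
    by_cases h : b ≤ V σ x
    · exact hmax ⟨h, hx⟩
    · push Not at h; linarith
  set Z : Set E3 := {x | x ∈ H ∧ V σ x = M} with hZ
  have hZc : IsClosed Z := by
    have h1 : Z = closure H ∩ {x | V σ x = M} := by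
      ext x
      constructor
      · rintro ⟨h1, h2⟩; exact ⟨subset_closure h1, h2⟩
      · rintro ⟨h1, h2⟩
        refine ⟨?_, h2⟩
        by_contra h3
        have h4 := hbd x h1 h3
        have h5 : V σ x = M := h2
        linarith
    rw [h1]
    exact isClosed_closure.inter (isClosed_eq hcont continuous_const)
  have hZo : IsOpen Z := by
    rw [Metric.isOpen_iff]
    rintro x ⟨hxH, hxM⟩
    have hopen : IsOpen (H ∩ {x | a < V σ x}) := hH.inter (isOpen_lt continuous_const hcont)
    obtain ⟨r, hr, hball⟩ := Metric.isOpen_iff.1 hopen x ⟨hxH, by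
      show a < V σ x
      rw [hxM]; linarith⟩
    refine ⟨r, hr, ?_⟩
    have h1 := hσ.mean_diff hR hr x
    have h2 : ∫ y, σ y * kr r (dist x y) ≤ 0 := by
      apply integral_nonpos_of_ae
      have hne : ∀ᵐ y : E3, y ≠ x := by simp [ae_iff]
      filter_upwards [hsub, hne] with y hy hyx
      simp only [Pi.zero_apply]
      have hd : 0 < dist x y := dist_pos.2 hyx.symm
      by_cases hyb : y ∈ Metric.ball x r
      · have h3 := hball hyb
        exact mul_nonpos_of_nonpos_of_nonneg (hy h3.1 h3.2) (kr_nonneg hr hd)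
      · have h3 : r ≤ dist x y := by
          rw [Metric.mem_ball, not_lt, dist_comm] at hyb; exact hyb
        rw [kr_zero hr h3, mul_zero]
    rw [hxM] at h1
    have hvb := vb_pos hr
    have hfin : volume (Metric.ball x r) ≠ ∞ := measure_ball_lt_top.ne
    have hVi : IntegrableOn (V σ) (Metric.ball x r) :=
      (hcont.continuousOn.integrableOn_compact (isCompact_closedBall x r)).mono_set Metric.ball_subset_closedBall
    have hMi : IntegrableOn (fun _ : E3 => M) (Metric.ball x r) := integrableOn_const hfin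
    have h3 : ∫ z in Metric.ball x r, (M - V σ z) = M * vb r - ∫ z in Metric.ball x r, V σ z := by
      rw [integral_sub hMi hVi, setIntegral_const, smul_eq_mul,
        Measure.real, vol_ball hr, ENNReal.toReal_ofReal hvb.le, mul_comm]
    have h4 : ∫ z in Metric.ball x r, (M - V σ z) ≤ 0 := by
      rw [h3]
      have h5 : M - (∫ z in Metric.ball x r, V σ z) / vb r ≤ 0 := by rw [h1]; exact h2
      have h6 : M ≤ (∫ z in Metric.ball x r, V σ z) / vb r := by linarith
      rw [le_div_iff₀ hvb] at h6
      linarith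
    have hge : ∀ z ∈ Metric.ball x r, 0 ≤ M - V σ z := fun z hz => by
      have := hle z (subset_closure (hball hz).1)
      linarith
    have h5 : ∫ z in Metric.ball x r, (M - V σ z) = 0 :=
      le_antisymm h4 (setIntegral_nonneg Metric.isOpen_ball.measurableSet hge)
    rw [setIntegral_eq_zero_iff_of_nonneg_ae] at h5
    · have h6 : EqOn (fun z => M - V σ z) (fun _ => 0) (Metric.ball x r) := by
        apply Measure.eqOn_open_of_ae_eq h5 Metric.isOpen_ball
        · exact (continuous_const.sub hcont).continuousOn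
        · exact continuousOn_const
      intro z hz
      refine ⟨(hball hz).1, ?_⟩
      have := h6 hz
      simp only at this
      linarith
    · rw [Filter.EventuallyLE, ae_restrict_iff' Metric.isOpen_ball.measurableSet]
      exact ae_of_all _ hge
    · exact hMi.sub hVi
  have hclopen : IsClopen Z := ⟨hZc, hZo⟩
  rcases isClopen_iff.1 hclopen with h | h
  · have h1 : x0 ∈ Z := by
      refine ⟨?_, rfl⟩
      by_contra h3
      have h4 := hbd x0 hx0.2 h3
      linarith
    rw [h] at h1
    exact h1
  · obtain ⟨ρ, hρ⟩ := hσ.V_small hR (lt_of_lt_of_le hb0 hbM)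
    obtain ⟨v, hv⟩ := NormedSpace.exists_lt_norm ℝ E3 ρ
    have h1 := hρ v hv.le
    have h2 : v ∈ Z := by rw [h]; trivial
    have h3 : V σ v = M := h2.2
    rw [h3] at h1
    exact absurd (le_abs_self M) (not_le.2 h1)

end Run7.h81.Hollow
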