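import Pool.Agent.Run7.h81.Hollow.Weak

set_option autoImplicit false

open MeasureTheory Set Filter Topology
open scoped ENNReal

namespace Run7.h81.Hollow

open Pool.Agent.H283R3.Newt

lemma Dens.good {U : Set E3} {R : ℝ} (hUR : U ⊆ Metric.ball 0 R) {ρ : E3 → ℝ}
    (h : Dens U ρ) : Good R ρ := by
  refine ⟨h.meas, fun y => ?_⟩
  rw [abs_of_nonneg (h.nonneg y)]
  refine (h.le y).trans ?_
  apply indicator_le_indicator_of_subset hUR
  intro _
  simp

lemma vol_ne_top {U : Set E3} {R : ℝ} (hUR : U ⊆ Metric.ball 0 R) : volume U ≠ ∞ :=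
  ((measure_mono hUR).trans_lt measure_ball_lt_top).ne

/-- weak convergence implies pointwise convergence of truncated potentials -/
lemma Vt_tendsto {U : Set E3} {R : ℝ} (hUR : U ⊆ Metric.ball 0 R)
    {ρ : ℕ → E3 → ℝ} (h : ∀ n, Dens U (ρ n)) {τ : E3 → ℝ} (hτ : Dens U τ)
    (hw : ∀ f : E3 → ℝ, MemLp f 2 volume →
        Tendsto (fun n => ∫ y, ρ n y * f y) atTop (𝓝 (∫ y, τ y * f y)))
    {ε : ℝ} (hε : 0 < ε) (x : E3) :
    Tendsto (fun n => Vt ε (ρ n) x) atTop (𝓝 (Vt ε τ x)) := by
  have h1 : MemLp ((Metric.ball (0:E3) R).indicator (fun y => (max (dist x y) ε)⁻¹)) 2 volume := by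
    have h2 : MemLp ((Metric.ball (0:E3) R).indicator (fun _ => ε⁻¹)) 2 (volume : Measure E3) :=
      memLp_indicator_const 2 Metric.isOpen_ball.measurableSet _ (Or.inr measure_ball_lt_top.ne)
    refine h2.mono ?_ (ae_of_all _ fun y => ?_)
    · exact (Measurable.indicator (by fun_prop) Metric.isOpen_ball.measurableSet).aestronglyMeasurable
    · by_cases hy : y ∈ Metric.ball (0:E3) R
      · rw [indicator_of_mem hy, indicator_of_mem hy, Real.norm_eq_abs, Real.norm_eq_abs,
          abs_of_nonneg (by positivity), abs_of_nonneg (by positivity)]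
        exact inv_anti₀ hε (le_max_right _ _)
      · rw [indicator_of_notMem hy, indicator_of_notMem hy]
  have h2 := hw _ h1
  have h3 : ∀ g : E3 → ℝ, Dens U g → ∫ y, g y * (Metric.ball (0:E3) R).indicator
      (fun y => (max (dist x y) ε)⁻¹) y = Vt ε g x := by
    intro g hg
    unfold Vt
    congr 1
    ext y
    by_cases hy : y ∈ Metric.ball (0:E3) R
    · rw [indicator_of_mem hy]
    · rw [indicator_of_notMem hy, hg.zero (fun h' => hy (hUR h'))]
      simp
  rw [h3 _ hτ] at h2
  refine h2.congr fun n => h3 _ (h n)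

lemma V_tendsto {U : Set E3} {R : ℝ} (hR : 0 < R) (hUR : U ⊆ Metric.ball 0 R)
    {ρ : ℕ → E3 → ℝ} (h : ∀ n, Dens U (ρ n)) {τ : E3 → ℝ} (hτ : Dens U τ)
    (hw : ∀ f : E3 → ℝ, MemLp f 2 volume →
        Tendsto (fun n => ∫ y, ρ n y * f y) atTop (𝓝 (∫ y, τ y * f y))) (x : E3) :
    Tendsto (fun n => V (ρ n) x) atTop (𝓝 (V τ x)) := by
  rw [Metric.tendsto_atTop]
  intro δ hδ
  obtain ⟨ε, hε, hε2⟩ : ∃ ε : ℝ, 0 < ε ∧ 2 * Real.pi * ε ^ 2 < δ / 3 := by
    have h2 : Tendsto (fun n : ℕ => 2 * Real.pi * (1 / ((n:ℝ) + 1)) ^ 2) atTop (𝓝 0) := by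
      have := ((tendsto_one_div_add_atTop_nhds_zero_nat (𝕜 := ℝ)).pow 2).const_mul (2 * Real.pi)
      simpa using this
    obtain ⟨n, hn⟩ := (h2.eventually (gt_mem_nhds (by positivity : 0 < δ / 3))).exists
    exact ⟨1 / ((n:ℝ) + 1), by positivity, hn⟩
  obtain ⟨N, hN⟩ := (Metric.tendsto_atTop.1 (Vt_tendsto hUR h hτ hw hε x)) (δ / 3) (by positivity)
  refine ⟨N, fun n hn => ?_⟩
  have h1 := hN n hn
  have h2 := Vt_close hR ((h n).good hUR) hε x
  have h3 := Vt_close hR (hτ.good hUR) hε x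
  rw [Real.dist_eq] at h1 ⊢
  rw [abs_le] at h2 h3
  rw [abs_lt] at h1 ⊢
  constructor <;> linarith [h1.1, h1.2, h2.1, h2.2, h3.1, h3.2]

lemma V_nonneg {U : Set E3} {ρ : E3 → ℝ} (h : Dens U ρ) (x : E3) : 0 ≤ V ρ x := by
  unfold V
  apply integral_nonneg
  intro y
  exact mul_nonneg (h.nonneg y) (inv_nonneg.2 dist_nonneg)

lemma V_le_const {R : ℝ} (hR : 0 < R) {τ : E3 → ℝ} (h : Good R τ) (x : E3) :
    |V τ x| ≤ 2 * Real.pi * R ^ 2 :=
  (h.V_abs_le hR x).trans (Nn_le hR (norm_nonneg _))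

/-- product of a good density with a continuous bounded potential is integrable -/
lemma int_mul_V {R : ℝ} (hR : 0 < R) {σ τ : E3 → ℝ} (hσ : Good R σ) (hτ : Good R τ) :
    Integrable (fun x => σ x * V τ x) := by
  apply Integrable.mul_bdd (c := 2 * Real.pi * R ^ 2) (hσ.integrable hR)
    (hτ.V_cont hR).aestronglyMeasurable
  exact ae_of_all _ fun x => V_le_const hR hτ x

/-- the energy functional -/
noncomputable def J (c : ℝ) (ρ : E3 → ℝ) : ℝ := (∫ x, ρ x * V ρ x) / 2 - c * ∫ x, ρ x

lemma J_tendsto {U : Set E3} {R : ℝ} (hR : 0 < R) (hUm : MeasurableSet U) (hUR : U ⊆ Metric.ball 0 R)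
    {ρ : ℕ → E3 → ℝ} (h : ∀ n, Dens U (ρ n)) {τ : E3 → ℝ} (hτ : Dens U τ)
    (hw : ∀ f : E3 → ℝ, MemLp f 2 volume →
        Tendsto (fun n => ∫ y, ρ n y * f y) atTop (𝓝 (∫ y, τ y * f y))) (c : ℝ) :
    Tendsto (fun n => J c (ρ n)) atTop (𝓝 (J c τ)) := by
  have hUt := vol_ne_top hUR
  have hUind : MemLp (U.indicator (fun _ => (1:ℝ))) 2 (volume : Measure E3) :=
    memLp_indicator_const 2 hUm _ (Or.inr hUt)
  have h1 : Tendsto (fun n => ∫ y, ρ n y) atTop (𝓝 (∫ y, τ y)) := by
    have h2 := hw _ hUind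
    have h3 : ∀ g : E3 → ℝ, Dens U g → ∫ y, g y * U.indicator (fun _ => (1:ℝ)) y = ∫ y, g y := by
      intro g hg
      congr 1
      ext y
      by_cases hy : y ∈ U
      · rw [indicator_of_mem hy, mul_one]
      · rw [indicator_of_notMem hy, hg.zero hy, mul_zero]
    rw [h3 _ hτ] at h2
    exact h2.congr fun n => h3 _ (h n)
  have h2 : Tendsto (fun n => ∫ x, ρ n x * V τ x) atTop (𝓝 (∫ x, τ x * V τ x)) := by
    have hm : MemLp (fun x => U.indicator (fun _ => (1:ℝ)) x * V τ x) 2 volume := by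
      refine (hUind.const_mul (2 * Real.pi * R ^ 2)).mono ?_ (ae_of_all _ fun x => ?_)
      · exact hUind.1.mul ((hτ.good hUR).V_cont hR).aestronglyMeasurable
      · rw [norm_mul, norm_mul, mul_comm]
        gcongr
        rw [Real.norm_eq_abs, Real.norm_eq_abs]
        exact (V_le_const hR (hτ.good hUR) x).trans (le_abs_self _)
    have h2 := hw _ hm
    have h3 : ∀ g : E3 → ℝ, Dens U g → ∫ x, g x * (U.indicator (fun _ => (1:ℝ)) x * V τ x) =
        ∫ x, g x * V τ x := by
      intro g hg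
      congr 1
      ext y
      by_cases hy : y ∈ U
      · rw [indicator_of_mem hy, one_mul]
      · rw [indicator_of_notMem hy, hg.zero hy, zero_mul, zero_mul]
    rw [h3 _ hτ] at h2
    exact h2.congr fun n => h3 _ (h n)
  have h3 : Tendsto (fun n => ∫ x, ρ n x * (V (ρ n) x - V τ x)) atTop (𝓝 0) := by
    have h4 : Tendsto (fun n => ∫ x, ρ n x * (V (ρ n) x - V τ x)) atTop (𝓝 (∫ _ : E3, (0:ℝ))) := by
      apply tendsto_integral_of_dominated_convergence
        (fun x => U.indicator (fun _ => (1:ℝ)) x * (2 * (2 * Real.pi * R ^ 2)))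
      · intro n
        exact (h n).meas.aestronglyMeasurable.mul
          ((((h n).good hUR).V_cont hR).aestronglyMeasurable.sub
            ((hτ.good hUR).V_cont hR).aestronglyMeasurable)
      · apply Integrable.mul_const
        exact (integrable_indicator_iff hUm).2 (integrableOn_const hUt)
      · intro n
        refine ae_of_all _ fun x => ?_
        rw [Real.norm_eq_abs, abs_mul, abs_of_nonneg ((h n).nonneg x)]
        have h5 : |V (ρ n) x - V τ x| ≤ 2 * (2 * Real.pi * R ^ 2) := by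
          have h6 := V_le_const hR ((h n).good hUR) x
          have h7 := V_le_const hR (hτ.good hUR) x
          rw [abs_le] at h6 h7 ⊢
          constructor <;> linarith [h6.1, h6.2, h7.1, h7.2]
        exact mul_le_mul ((h n).le x) h5 (abs_nonneg _) (by
          apply indicator_nonneg; intro _ _; exact zero_le_one)
      · refine ae_of_all _ fun x => ?_
        have h5 := V_tendsto hR hUR h hτ hw x
        have h6 : Tendsto (fun n => V (ρ n) x - V τ x) atTop (𝓝 0) := by
          have := h5.sub_const (V τ x)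
          rwa [sub_self] at this
        have h7 : Tendsto (fun n => ‖V (ρ n) x - V τ x‖) atTop (𝓝 0) := by
          simpa using h6.norm
        refine squeeze_zero_norm (fun n => ?_) h7
        rw [norm_mul, Real.norm_eq_abs, abs_of_nonneg ((h n).nonneg x)]
        have h8 := (h n).le_one x
        have h9 := norm_nonneg (V (ρ n) x - V τ x)
        nlinarith
    simpa using h4
  have h4 : ∀ n, J c (ρ n) = ((∫ x, ρ n x * V τ x) + ∫ x, ρ n x * (V (ρ n) x - V τ x)) / 2 -
      c * ∫ x, ρ n x := by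
    intro n
    unfold J
    rw [← integral_add]
    · congr 3
      ext x
      ring
    · exact int_mul_V hR ((h n).good hUR) (hτ.good hUR)
    · have := (int_mul_V hR ((h n).good hUR) ((h n).good hUR)).sub
        (int_mul_V hR ((h n).good hUR) (hτ.good hUR))
      refine this.congr (ae_of_all _ fun x => ?_)
      simp only [Pi.sub_apply]
      ring
  simp_rw [h4]
  have h5 := ((h2.add h3).div_const 2).sub (h1.const_mul c)
  rw [add_zero] at h5
  exact h5

/-- symmetry of the energy form -/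
lemma form_symm {R : ℝ} (hR : 0 < R) {σ τ : E3 → ℝ} (hσ : Good R σ) (hτ : Good R τ) :
    ∫ x, σ x * V τ x = ∫ x, τ x * V σ x := by
  have h1 : ∀ x, σ x * V τ x = ∫ y, σ x * (τ y * (dist x y)⁻¹) := by
    intro x
    unfold V
    rw [integral_const_mul]
  have h2 : ∀ x, τ x * V σ x = ∫ y, σ y * (τ x * (dist y x)⁻¹) := by
    intro x
    unfold V
    rw [← integral_const_mul]
    congr 1
    ext y
    rw [dist_comm y x]
    ring
  simp_rw [h1, h2]
  rw [integral_integral_swap]
  rw [integrable_prod_iff (by have := hσ.meas; have := hτ.meas; fun_prop)]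
  constructor
  · refine ae_of_all _ fun x => ?_
    exact (hτ.int_kern hR x).const_mul (σ x)
  · have habs : Good R (fun y => |τ y|) := ⟨hτ.meas.abs, fun y => by rw [abs_abs]; exact hτ.bd y⟩
    have h3 : ∀ x : E3, ∫ y, ‖σ x * (τ y * (dist x y)⁻¹)‖ = |σ x| * V (fun y => |τ y|) x := by
      intro x
      unfold V
      rw [← integral_const_mul]
      congr 1
      ext y
      rw [norm_mul, norm_mul, Real.norm_eq_abs, Real.norm_eq_abs, Real.norm_eq_abs,
        abs_of_nonneg (inv_nonneg.2 dist_nonneg : 0 ≤ (dist x y)⁻¹)]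
    show Integrable (fun x => ∫ y, ‖σ x * (τ y * (dist x y)⁻¹)‖)
    simp_rw [h3]
    have habs2 : Good R (fun y => |σ y|) := ⟨hσ.meas.abs, fun y => by rw [abs_abs]; exact hσ.bd y⟩
    exact int_mul_V hR habs2 habs

lemma J_bdd {U : Set E3} {R : ℝ} (hR : 0 < R) (hUm : MeasurableSet U) (hUR : U ⊆ Metric.ball 0 R)
    {ρ : E3 → ℝ} (h : Dens U ρ) {c : ℝ} (hc : 0 ≤ c) :
    -(c * ∫ x, U.indicator (fun _ => (1:ℝ)) x) ≤ J c ρ := by
  unfold J
  have h1 : 0 ≤ ∫ x, ρ x * V ρ x := integral_nonneg fun x => mul_nonneg (h.nonneg x) (V_nonneg h x)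
  have h2 : ∫ x, ρ x ≤ ∫ x, U.indicator (fun _ => (1:ℝ)) x := by
    apply integral_mono ((h.good hUR).integrable hR)
    · exact (integrable_indicator_iff hUm).2 (integrableOn_const (vol_ne_top hUR))
    · exact h.le
  nlinarith [mul_le_mul_of_nonneg_left h2 hc]

/-- existence of a minimiser -/
theorem exists_min {U : Set E3} {R : ℝ} (hR : 0 < R) (hUm : MeasurableSet U)
    (hUR : U ⊆ Metric.ball 0 R) {c : ℝ} (hc : 0 ≤ c) :
    ∃ τ : E3 → ℝ, Dens U τ ∧ ∀ g, Dens U g → J c τ ≤ J c g := by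
  set K : Set ℝ := {a | ∃ ρ, Dens U ρ ∧ J c ρ = a} with hK
  have h0 : Dens U (fun _ => 0) := ⟨measurable_const, fun _ => le_refl _, fun y => by
    apply indicator_nonneg; intro _ _; exact zero_le_one⟩
  have hne : K.Nonempty := ⟨_, _, h0, rfl⟩
  have hbd : BddBelow K := ⟨_, by
    rintro a ⟨ρ, hρ, rfl⟩
    exact J_bdd hR hUm hUR hρ hc⟩
  obtain ⟨u, -, hu, hmem⟩ := exists_seq_tendsto_sInf hne hbd
  choose ρ hρ hJ using hmem
  obtain ⟨τ, φ, hτ, hφ, hw⟩ := weak_compact hUm (vol_ne_top hUR) hρ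
  refine ⟨τ, hτ, fun g hg => ?_⟩
  have h1 := J_tendsto hR hUm hUR (fun n => hρ (φ n)) hτ hw c
  have h2 : Tendsto (fun n => J c (ρ (φ n))) atTop (𝓝 (sInf K)) := by
    simp_rw [hJ]
    exact hu.comp hφ.tendsto_atTop
  rw [tendsto_nhds_unique h1 h2]
  exact csInf_le hbd ⟨g, hg, rfl⟩

/-- first variation -/
theorem first_var {U : Set E3} {R : ℝ} (hR : 0 < R)
    (hUR : U ⊆ Metric.ball 0 R) {c : ℝ} {τ : E3 → ℝ} (hτ : Dens U τ)
    (hmin : ∀ g, Dens U g → J c τ ≤ J c g) {g : E3 → ℝ} (hg : Dens U g) :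
    0 ≤ ∫ x, (V τ x - c) * (g x - τ x) := by
  have hτg := hτ.good hUR
  have hgg := hg.good hUR
  set L : ℝ := ∫ x, (V τ x - c) * (g x - τ x) with hL
  set Q : ℝ := ∫ x, (g x - τ x) * V (fun y => g y - τ y) x with hQ
  have hd : Good R (fun y => g y - τ y) := by
    refine ⟨hg.meas.sub hτ.meas, fun y => ?_⟩
    by_cases hy : y ∈ Metric.ball (0:E3) R
    · rw [indicator_of_mem hy, abs_le]
      have h1 := hg.le_one y
      have h2 := hτ.le_one y
      have h3 := hg.nonneg y
      have h4 := hτ.nonneg y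
      simp only [Pi.one_apply]
      constructor <;> linarith
    · rw [indicator_of_notMem hy, hg.zero (fun h => hy (hUR h)), hτ.zero (fun h => hy (hUR h))]
      simp
  have hVlin : ∀ (t : ℝ) x, V (fun y => τ y + t * (g y - τ y)) x = V τ x + t * V (fun y => g y - τ y) x := by
    intro t x
    unfold V
    rw [← integral_const_mul, ← integral_add (hτg.int_kern hR x) ((hd.int_kern hR x).const_mul t)]
    congr 1
    ext y
    ring
  have key : ∀ t : ℝ, 0 < t → t ≤ 1 → 0 ≤ t * L + t ^ 2 * (Q / 2) := by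
    intro t ht0 ht1
    have hdt : Dens U (fun y => τ y + t * (g y - τ y)) := by
      refine ⟨?_, fun y => ?_, fun y => ?_⟩
      · have := hτ.meas
        have := hg.meas
        fun_prop
      · have h3 := hg.nonneg y
        have h4 := hτ.nonneg y
        nlinarith
      · have h3 := hg.le y
        have h4 := hτ.le y
        nlinarith
    have h1 := hmin _ hdt
    have h2 : J c (fun y => τ y + t * (g y - τ y)) = J c τ + (t * L + t ^ 2 * (Q / 2)) := by
      unfold J
      have e1 : ∫ x, (τ x + t * (g x - τ x)) * V (fun y => τ y + t * (g y - τ y)) x =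
          (∫ x, τ x * V τ x) + t * (∫ x, τ x * V (fun y => g y - τ y) x) +
            t * (∫ x, (g x - τ x) * V τ x) + t ^ 2 * Q := by
        rw [hQ, ← integral_const_mul, ← integral_const_mul, ← integral_const_mul, ← integral_add,
          ← integral_add, ← integral_add]
        · congr 1
          ext x
          rw [hVlin]
          ring
        · exact ((int_mul_V hR hτg hτg).add ((int_mul_V hR hτg hd).const_mul t)).add
            ((int_mul_V hR hd hτg).const_mul t)
        · exact (int_mul_V hR hd hd).const_mul _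
        · exact (int_mul_V hR hτg hτg).add ((int_mul_V hR hτg hd).const_mul t)
        · exact (int_mul_V hR hd hτg).const_mul t
        · exact int_mul_V hR hτg hτg
        · exact (int_mul_V hR hτg hd).const_mul t
      have e2 : ∫ x, τ x * V (fun y => g y - τ y) x = ∫ x, (g x - τ x) * V τ x :=
        form_symm hR hτg hd
      have e3 : ∫ x, (τ x + t * (g x - τ x)) = (∫ x, τ x) + t * ∫ x, (g x - τ x) := by
        rw [← integral_const_mul, ← integral_add (hτg.integrable hR) ((hd.integrable hR).const_mul t)]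
      have e4 : L = (∫ x, (g x - τ x) * V τ x) - c * ∫ x, (g x - τ x) := by
        rw [hL, ← integral_const_mul, ← integral_sub (int_mul_V hR hd hτg)
          ((hd.integrable hR).const_mul c)]
        congr 1
        ext x
        ring
      rw [e1, e2, e3, e4]
      ring
    rw [h2] at h1
    linarith
  by_contra hneg
  push Not at hneg
  -- choose t small
  have hQ' : 0 < |Q| + 1 := by positivity
  set t : ℝ := min 1 (-L / (|Q| + 1)) with ht
  have ht0 : 0 < t := lt_min one_pos (div_pos (by linarith) hQ')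
  have h1 := key t ht0 (min_le_left _ _)
  have h2 : t * (|Q| + 1) ≤ -L := by
    rw [← le_div_iff₀ hQ']
    exact min_le_right _ _
  have h3 : Q ≤ |Q| := le_abs_self _
  have h4 : 0 ≤ |Q| := abs_nonneg _
  have h5 : 0 ≤ t * (L + t * (Q / 2)) := by nlinarith
  have h6 : L + t * (Q / 2) < 0 := by nlinarith
  nlinarith

end Run7.h81.Hollow
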