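import Pool.Agent.Run7.h81.Hollow.Maxp

set_option autoImplicit false

open MeasureTheory Set Filter Topology
open scoped ENNReal

namespace Run7.h81.Hollow

open Pool.Agent.H283R3.Newt

/-- the linear reflection in the `i`-th coordinate -/
noncomputable def flip (i : Fin 3) : E3 ≃ₗᵢ[ℝ] E3 :=
  LinearIsometryEquiv.piLpCongrRight 2
    (fun j => if j = i then LinearIsometryEquiv.neg ℝ else LinearIsometryEquiv.refl ℝ ℝ)

lemma flip_apply (i j : Fin 3) (z : E3) : flip i z j = if j = i then - z j else z j := by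
  unfold flip
  rw [LinearIsometryEquiv.piLpCongrRight_apply]
  split_ifs with h
  · simp [h]
  · simp [h]

/-- reflection in the plane `z i = l` -/
noncomputable def rf (i : Fin 3) (l : ℝ) (z : E3) : E3 := flip i z + EuclideanSpace.single i (2 * l)

lemma rf_apply (i j : Fin 3) (l : ℝ) (z : E3) : rf i l z j = if j = i then 2 * l - z j else z j := by
  unfold rf
  rw [PiLp.add_apply, flip_apply]
  by_cases h : j = i
  · subst h; simp; ring
  · simp [h]

lemma rf_rf (i : Fin 3) (l : ℝ) (z : E3) : rf i l (rf i l z) = z := by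
  ext j
  rw [rf_apply, rf_apply]
  split_ifs <;> ring

lemma rf_dist (i : Fin 3) (l : ℝ) (x y : E3) : dist (rf i l x) (rf i l y) = dist x y := by
  unfold rf
  rw [dist_add_right, LinearIsometryEquiv.dist_map]

lemma rf_mp (i : Fin 3) (l : ℝ) : MeasurePreserving (rf i l) volume volume := by
  have h1 : MeasurePreserving (flip i) (volume : Measure E3) volume := (flip i).measurePreserving
  have h2 : MeasurePreserving (fun x : E3 => x + EuclideanSpace.single i (2 * l)) volume volume :=
    measurePreserving_add_right volume _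
  exact h2.comp h1

/-- the reflection as a measurable equivalence -/
noncomputable def rfe (i : Fin 3) (l : ℝ) : E3 ≃ᵐ E3 where
  toFun := rf i l
  invFun := rf i l
  left_inv := rf_rf i l
  right_inv := rf_rf i l
  measurable_toFun := (rf_mp i l).measurable
  measurable_invFun := (rf_mp i l).measurable

lemma V_rf (i : Fin 3) (l : ℝ) (ρ : E3 → ℝ) (x : E3) :
    V (fun y => ρ (rf i l y)) x = V ρ (rf i l x) := by
  unfold V
  have h := (rf_mp i l).integral_comp (rfe i l).measurableEmbedding
    (fun y => ρ y * (dist (rf i l x) y)⁻¹)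
  rw [← h]
  congr 1
  ext y
  show _ = ρ (rf i l y) * (dist (rf i l x) (rf i l y))⁻¹
  rw [rf_dist]

lemma rf_norm (i : Fin 3) (l : ℝ) (y : E3) : ‖y‖ ≤ ‖rf i l y‖ + 2 * |l| := by
  have h1 : y = rf i l (rf i l y) := (rf_rf i l y).symm
  have h2 : ‖rf i l (rf i l y)‖ ≤ ‖flip i (rf i l y)‖ + ‖EuclideanSpace.single i (2 * l)‖ := norm_add_le _ _
  rw [← h1, LinearIsometryEquiv.norm_map] at h2
  have h3 : ‖(EuclideanSpace.single i (2 * l) : E3)‖ = 2 * |l| := by
    rw [PiLp.norm_single, Real.norm_eq_abs, abs_mul]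
    simp
  linarith

/-- comparison by reflection -/
theorem compare {U : Set E3} {R : ℝ} (hR : 0 < R) (hUm : MeasurableSet U)
    (hUR : U ⊆ Metric.ball 0 R) {c : ℝ} {τ : E3 → ℝ} (hτ : Dens U τ)
    (hmin : ∀ g, Dens U g → J c τ ≤ J c g) (hVc : ∀ x, V τ x ≤ c)
    (hdown : ∀ x y : E3, x ∈ U → (∀ i, |y i| ≤ |x i|) → y ∈ U)
    {x y : E3} {i : Fin 3} (hxy : ∀ j, j ≠ i → y j = x j) (hi : |y i| ≤ |x i|) :
    V τ x ≤ V τ y := by
  by_cases hne : x i = y i
  · have : x = y := by
      ext j
      by_cases h : j = i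
      · subst h; exact hne
      · exact (hxy j h).symm
    rw [this]
  have hτg := hτ.good hUR
  set l : ℝ := (x i + y i) / 2 with hl
  set d : ℝ := x i - y i with hd
  have hd0 : d ≠ 0 := sub_ne_zero.2 hne
  have hdd : 0 < d ^ 2 := by positivity
  have hld : 0 ≤ l * d := by
    have h1 : (y i) ^ 2 ≤ (x i) ^ 2 := sq_le_sq.2 hi
    rw [hl, hd]
    nlinarith
  set H : Set E3 := {z | 0 < (z i - l) * d} with hH
  have hHo : IsOpen H := isOpen_lt (by fun_prop) (by fun_prop)
  have hxH : x ∈ H := by
    show 0 < (x i - l) * d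
    have : x i - l = d / 2 := by rw [hl, hd]; ring
    rw [this]; nlinarith
  have hyx : rf i l x = y := by
    ext j
    rw [rf_apply]
    split_ifs with h
    · subst h; rw [hl]; ring
    · exact (hxy j h).symm
  set σ : E3 → ℝ := fun z => τ z - τ (rf i l z) with hσ
  have hτr : Dens (rf i l ⁻¹' U) (fun z => τ (rf i l z)) :=
    ⟨hτ.meas.comp (rf_mp i l).measurable, fun z => hτ.nonneg _, fun z => hτ.le _⟩
  set R' : ℝ := R + 2 * |l| with hR'
  have hR'0 : 0 < R' := by positivity
  have hRR' : R ≤ R' := by rw [hR']; have := abs_nonneg l; linarith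
  have hUR' : U ⊆ Metric.ball 0 R' := hUR.trans (Metric.ball_subset_ball hRR')
  have hUR'' : rf i l ⁻¹' U ⊆ Metric.ball 0 R' := by
    intro z hz
    have h1 := hUR hz
    rw [mem_ball_zero_iff] at h1 ⊢
    have h2 := rf_norm i l z
    rw [hR']
    linarith
  have hσg : Good R' σ := by
    refine ⟨hτ.meas.sub hτr.meas, fun z => ?_⟩
    by_cases hz : z ∈ Metric.ball (0:E3) R'
    · rw [indicator_of_mem hz, abs_le]
      have h1 := hτ.le_one z
      have h2 := hτ.nonneg z
      have h3 := hτ.le_one (rf i l z)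
      have h4 := hτ.nonneg (rf i l z)
      simp only [Pi.one_apply, hσ]
      constructor <;> linarith
    · rw [indicator_of_notMem hz, hσ]
      have h1 : τ z = 0 := hτ.zero (fun h => hz (hUR' h))
      have h2 : τ (rf i l z) = 0 := hτr.zero (fun h => hz (hUR'' h))
      simp only [h1, h2]
      simp
  have hVσ : ∀ z, V σ z = V τ z - V τ (rf i l z) := by
    intro z
    rw [← V_rf]
    unfold V
    rw [← integral_sub ((hτ.good hUR').int_kern hR'0 z) ((hτr.good hUR'').int_kern hR'0 z)]
    congr 1
    ext w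
    rw [hσ]
    ring
  have hkey := mp hR'0 hσg hHo (le_refl (0:ℝ)) (fun z hz hz2 => by
    have h1 : 0 ≤ (z i - l) * d := by
      have hcl : IsClosed {z : E3 | 0 ≤ (z i - l) * d} := isClosed_le (by fun_prop) (by fun_prop)
      have hsub : H ⊆ {z : E3 | 0 ≤ (z i - l) * d} := by
        intro w hw
        have hw' : 0 < (w i - l) * d := hw
        exact hw'.le
      exact closure_minimal hsub hcl hz
    have h2 : (z i - l) * d = 0 := le_antisymm (not_lt.1 hz2) h1
    have h3 : z i = l := by
      rcases mul_eq_zero.1 h2 with h | h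
      · linarith
      · exact absurd h hd0
    have h4 : rf i l z = z := by
      ext j
      rw [rf_apply]
      split_ifs with h
      · subst h; rw [h3]; ring
      · rfl
    rw [hVσ, h4, sub_self]) (by
    have h1 := el_lt hR hUm hUR hτ hmin
    have h2 : ∀ᵐ z : E3, rf i l z ∈ U → V τ (rf i l z) < c → τ (rf i l z) = 1 :=
      (rf_mp i l).quasiMeasurePreserving.ae h1
    filter_upwards [h2] with z hz hzH hzV
    rw [hVσ] at hzV
    have h3 : V τ (rf i l z) < c := by
      have := hVc z
      linarith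
    show τ z - τ (rf i l z) ≤ 0
    by_cases hzU : z ∈ U
    · have h4 : rf i l z ∈ U := by
        apply hdown z _ hzU
        intro j
        rw [rf_apply]
        split_ifs with h
        · subst h
          rw [← sq_le_sq]
          have h5 : 0 < (z j - l) * d := hzH
          have h6 : 0 ≤ (l * d) * ((z j - l) * d) := mul_nonneg hld h5.le
          have h7 : 0 ≤ l * (z j - l) := by
            by_contra h8
            push Not at h8
            nlinarith
          nlinarith
        · exact le_refl _
      rw [hz h4 h3]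
      have := hτ.le_one z
      linarith
    · rw [hτ.zero hzU]
      have := hτ.nonneg (rf i l z)
      linarith)
  have h1 := hkey x hxH
  rw [hVσ, hyx] at h1
  linarith

/-- the potential decreases in every `|x i|` -/
theorem compare_all {U : Set E3} {R : ℝ} (hR : 0 < R) (hUm : MeasurableSet U)
    (hUR : U ⊆ Metric.ball 0 R) {c : ℝ} {τ : E3 → ℝ} (hτ : Dens U τ)
    (hmin : ∀ g, Dens U g → J c τ ≤ J c g) (hVc : ∀ x, V τ x ≤ c)
    (hdown : ∀ x y : E3, x ∈ U → (∀ i, |y i| ≤ |x i|) → y ∈ U)
    {x y : E3} (hxy : ∀ i, |y i| ≤ |x i|) : V τ x ≤ V τ y := by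
  have step := fun (x y : E3) (i : Fin 3) (h1 : ∀ j, j ≠ i → y j = x j) (h2 : |y i| ≤ |x i|) =>
    compare hR hUm hUR hτ hmin hVc hdown h1 h2
  set a : E3 := !₂[y 0, x 1, x 2] with ha
  set b : E3 := !₂[y 0, y 1, x 2] with hb
  have h1 : V τ x ≤ V τ a := by
    apply step x a 0
    · intro j hj; fin_cases j
      · exact absurd rfl hj
      · rfl
      · rfl
    · exact hxy 0
  have h2 : V τ a ≤ V τ b := by
    apply step a b 1
    · intro j hj; fin_cases j
      · rfl
      · exact absurd rfl hj
      · rfl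
    · exact hxy 1
  have h3 : V τ b ≤ V τ y := by
    apply step b y 2
    · intro j hj; fin_cases j
      · rfl
      · rfl
      · exact absurd rfl hj
    · exact hxy 2
  linarith

end Run7.h81.Hollow
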