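import Pool.Agent.Run7.h81.Hollow.Down

set_option autoImplicit false

open Set Filter Topology
open scoped Pointwise

namespace Run7.h81.Hollow

open Pool.Agent.H283R3.Newt

section

variable {D : Set E3} (hDo : IsOpen D) (hDd : Down D) (hDb : Bornology.IsBounded D) (h0 : (0:E3) ∈ D)

include hDo hDd h0 in
lemma gauge_lt_iff (x : E3) : gauge D x < 1 ↔ x ∈ D := by
  constructor
  · intro h
    obtain ⟨b, hb0, hb1, z, hz, rfl⟩ := exists_lt_of_gauge_lt (absorbent_nhds_zero (hDo.mem_nhds h0)) h
    exact hDd.smul_mem hz hb0.le hb1.le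
  · intro h
    exact gauge_lt_one_of_mem_of_isOpen hDo h

include hDo hDd h0 in
lemma gauge_down {x y : E3} (hxy : ∀ i, |y i| ≤ |x i|) : gauge D y ≤ gauge D x := by
  apply le_of_forall_gt
  intro a ha
  obtain ⟨b, hb0, hb1, z, hz, rfl⟩ := exists_lt_of_gauge_lt (absorbent_nhds_zero (hDo.mem_nhds h0)) ha
  refine lt_of_le_of_lt (gauge_le_of_mem hb0.le ?_) hb1
  refine ⟨b⁻¹ • y, hDd z _ hz fun i => ?_, ?_⟩
  · have h1 := hxy i
    simp only [PiLp.smul_apply, smul_eq_mul, abs_mul, abs_of_pos hb0, abs_inv] at h1 ⊢
    rwa [inv_mul_le_iff₀ hb0]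
  · show b • (b⁻¹ • y) = y
    rw [smul_smul, mul_inv_cancel₀ hb0.ne', one_smul]

lemma gauge_smul_nn (D : Set E3) {t : ℝ} (ht : 0 ≤ t) (x : E3) : gauge D (t • x) = t * gauge D x := by
  rw [gauge_smul_of_nonneg ht, smul_eq_mul]

include hDo hDd h0 in
lemma gauge_cont : Continuous (gauge D) := by
  rw [OrderTopology.continuous_iff]
  intro a
  constructor
  · rcases lt_or_ge a 0 with ha | ha
    · have : gauge D ⁻¹' Ioi a = univ := by
        ext x
        simp only [mem_preimage, mem_Ioi, mem_univ, iff_true]
        exact lt_of_lt_of_le ha (gauge_nonneg x)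
      rw [this]
      exact isOpen_univ
    · rw [isOpen_iff_mem_nhds]
      intro x hx
      have hG : a < gauge D x := hx
      set G := gauge D x with hGd
      set lam : ℝ := 1 + (G - a) / (2 * (a + 1)) with hlam
      have h1 : 1 < lam := by
        rw [hlam]
        have : 0 < (G - a) / (2 * (a + 1)) := div_pos (by linarith) (by linarith)
        linarith
      have h2 : lam * a < G := by
        rw [hlam, add_mul, one_mul]
        have h3 : (G - a) / (2 * (a + 1)) * a < G - a := by
          rw [div_mul_eq_mul_div, div_lt_iff₀ (by linarith)]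
          nlinarith
        linarith
      have hopen : IsOpen (⋂ i : Fin 3, {y : E3 | x i = 0 ∨ |x i| < lam * |y i|}) := by
        apply isOpen_iInter_of_finite
        intro i
        by_cases hi : x i = 0
        · have : {y : E3 | x i = 0 ∨ |x i| < lam * |y i|} = univ := by
            ext y; simp [hi]
          rw [this]; exact isOpen_univ
        · have : {y : E3 | x i = 0 ∨ |x i| < lam * |y i|} = {y : E3 | |x i| < lam * |y i|} := by
            ext y; simp [hi]
          rw [this]
          exact isOpen_lt continuous_const (by fun_prop)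
      have hmem : x ∈ (⋂ i : Fin 3, {y : E3 | x i = 0 ∨ |x i| < lam * |y i|}) := by
        rw [mem_iInter]
        intro i
        by_cases hi : x i = 0
        · exact Or.inl hi
        · right
          have : 0 < |x i| := abs_pos.2 hi
          nlinarith
      refine mem_of_superset (hopen.mem_nhds hmem) ?_
      intro y hy
      rw [mem_iInter] at hy
      show a < gauge D y
      have h3 : gauge D x ≤ gauge D (lam • y) := by
        apply gauge_down hDo hDd h0
        intro i
        have hl0 : 0 < lam := by linarith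
        rw [PiLp.smul_apply, smul_eq_mul, abs_mul lam, abs_of_pos hl0]
        rcases hy i with h | h
        · rw [h, abs_zero]; positivity
        · exact h.le
      rw [gauge_smul_nn D (by linarith)] at h3
      have h4 : lam * a < lam * gauge D y := lt_of_lt_of_le h2 h3
      exact lt_of_mul_lt_mul_left h4 (by linarith)
  · rcases le_or_gt a 0 with ha | ha
    · have : gauge D ⁻¹' Iio a = ∅ := by
        ext x
        simp only [mem_preimage, mem_Iio, mem_empty_iff_false, iff_false, not_lt]
        exact ha.trans (gauge_nonneg x)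
      rw [this]
      exact isOpen_empty
    · have : gauge D ⁻¹' Iio a = (fun x : E3 => a⁻¹ • x) ⁻¹' D := by
        ext x
        rw [mem_preimage, mem_preimage, ← gauge_lt_iff hDo hDd h0, gauge_smul_nn D (by positivity),
          mem_Iio, inv_mul_lt_iff₀ ha, mul_one]
      rw [this]
      exact hDo.preimage (by fun_prop)

include hDo hDd h0 in
lemma frontier_eq : frontier D = {x | gauge D x = 1} := by
  have hc := gauge_cont hDo hDd h0
  ext x
  rw [hDo.frontier_eq]
  constructor
  · rintro ⟨h1, h2⟩
    have h3 : closure D ⊆ {x | gauge D x ≤ 1} := by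
      apply closure_minimal _ (isClosed_le hc continuous_const)
      intro y hy
      exact ((gauge_lt_iff hDo hDd h0 y).2 hy).le
    have h4 : gauge D x ≤ 1 := h3 h1
    refine le_antisymm h4 ?_
    by_contra h5
    push Not at h5
    exact h2 ((gauge_lt_iff hDo hDd h0 x).1 h5)
  · intro h
    have h' : gauge D x = 1 := h
    refine ⟨?_, fun h2 => ?_⟩
    · have ht : Tendsto (fun t : ℝ => t • x) (𝓝[<] 1) (𝓝 ((1:ℝ) • x)) := by
        have : Continuous (fun t : ℝ => t • x) := by fun_prop
        exact (this.tendsto 1).mono_left nhdsWithin_le_nhds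
      rw [one_smul] at ht
      apply mem_closure_of_tendsto ht
      filter_upwards [Ioo_mem_nhdsLT (zero_lt_one (α := ℝ))] with t ht
      rw [← gauge_lt_iff hDo hDd h0, gauge_smul_nn D ht.1.le, h', mul_one]
      exact ht.2
    · have := (gauge_lt_iff hDo hDd h0 x).2 h2
      linarith

include hDo hDd hDb h0 in
theorem frontier_homeo : Nonempty (frontier D ≃ₜ Metric.sphere (0:E3) 1) := by
  have hc := gauge_cont hDo hDd h0
  have hf := frontier_eq hDo hDd h0
  have hpos : ∀ x : E3, x ≠ 0 → 0 < gauge D x := by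
    intro x hx
    exact (gauge_pos (absorbent_nhds_zero (hDo.mem_nhds h0))
      (NormedSpace.isVonNBounded_iff ℝ |>.2 hDb)).2 hx
  have hne : ∀ x : frontier D, (x : E3) ≠ 0 := by
    rintro ⟨x, hx⟩ h
    rw [hf] at hx
    have h1 : gauge D x = 1 := hx
    simp only at h
    rw [h, gauge_zero] at h1
    exact zero_ne_one h1
  have hg1 : ∀ x : frontier D, gauge D (x : E3) = 1 := by
    rintro ⟨x, hx⟩
    rw [hf] at hx
    exact hx
  have hnu : ∀ u : Metric.sphere (0:E3) 1, ‖(u : E3)‖ = 1 := fun u => mem_sphere_zero_iff_norm.1 u.2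
  have hune : ∀ u : Metric.sphere (0:E3) 1, (u : E3) ≠ 0 := by
    intro u h
    have := hnu u
    rw [h, norm_zero] at this
    exact zero_ne_one this
  refine ⟨{
    toFun := fun x => ⟨‖(x:E3)‖⁻¹ • (x:E3), ?_⟩
    invFun := fun u => ⟨(gauge D (u:E3))⁻¹ • (u:E3), ?_⟩
    left_inv := ?_
    right_inv := ?_
    continuous_toFun := ?_
    continuous_invFun := ?_ }⟩
  · rw [mem_sphere_zero_iff_norm, norm_smul, norm_inv, norm_norm,
      inv_mul_cancel₀ (norm_ne_zero_iff.2 (hne x))]
  · rw [hf]
    show gauge D _ = 1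
    rw [gauge_smul_nn D (inv_nonneg.2 (gauge_nonneg _)), inv_mul_cancel₀ (hpos _ (hune u)).ne']
  · intro x
    apply Subtype.ext
    show (gauge D (‖(x:E3)‖⁻¹ • (x:E3)))⁻¹ • (‖(x:E3)‖⁻¹ • (x:E3)) = x
    rw [gauge_smul_nn D (inv_nonneg.2 (norm_nonneg _)), hg1, mul_one, inv_inv, smul_smul,
      mul_inv_cancel₀ (norm_ne_zero_iff.2 (hne x)), one_smul]
  · intro u
    apply Subtype.ext
    show (‖(gauge D (u:E3))⁻¹ • (u:E3)‖)⁻¹ • ((gauge D (u:E3))⁻¹ • (u:E3)) = u
    rw [norm_smul, hnu, mul_one, norm_inv, Real.norm_eq_abs, abs_of_pos (hpos _ (hune u)), inv_inv,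
      smul_smul, mul_inv_cancel₀ (hpos _ (hune u)).ne', one_smul]
  · apply Continuous.subtype_mk
    have h1 : Continuous (fun x : frontier D => ‖(x:E3)‖⁻¹) := by
      apply Continuous.inv₀ (by fun_prop)
      intro x
      exact norm_ne_zero_iff.2 (hne x)
    exact h1.smul continuous_subtype_val
  · apply Continuous.subtype_mk
    have h1 : Continuous (fun u : Metric.sphere (0:E3) 1 => (gauge D (u:E3))⁻¹) := by
      apply Continuous.inv₀ (hc.comp continuous_subtype_val)
      intro u
      exact (hpos _ (hune u)).ne'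
    exact h1.smul continuous_subtype_val

include hDd h0 in
theorem conn : IsConnected D := by
  have h1 : StarConvex ℝ (0:E3) D := by
    rw [starConvex_zero_iff]
    intro x hx a ha0 ha1
    exact hDd.smul_mem hx ha0 ha1
  exact (h1.isPathConnected h0).isConnected

end

end Run7.h81.Hollow
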