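import Pool.Agent.H283R3.Newt3

set_option autoImplicit false

open MeasureTheory Set Filter Topology
open scoped ENNReal RealInnerProductSpace

namespace Run7.h81.Hollow

open Pool.Agent.H283R3.Newt

/-- densities between `0` and the indicator of `U` -/
structure Dens (U : Set E3) (ρ : E3 → ℝ) : Prop where
  meas : Measurable ρ
  nonneg : ∀ y, 0 ≤ ρ y
  le : ∀ y, ρ y ≤ U.indicator 1 y

lemma Dens.le_one {U : Set E3} {ρ : E3 → ℝ} (h : Dens U ρ) (y : E3) : ρ y ≤ 1 := by
  refine (h.le y).trans ?_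
  unfold indicator
  split_ifs <;> simp

lemma Dens.zero {U : Set E3} {ρ : E3 → ℝ} (h : Dens U ρ) {y : E3} (hy : y ∉ U) : ρ y = 0 := by
  have h1 := h.le y
  rw [indicator_of_notMem hy] at h1
  exact le_antisymm h1 (h.nonneg y)

lemma Dens.memLp {U : Set E3} (hUm : MeasurableSet U) (hU : volume U ≠ ∞) {ρ : E3 → ℝ}
    (h : Dens U ρ) (p : ℝ≥0∞) : MemLp ρ p volume := by
  have h1 : MemLp (U.indicator (fun _ => (1:ℝ))) p (volume : Measure E3) :=
    memLp_indicator_const p hUm (1:ℝ) (Or.inr hU)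
  refine h1.mono h.meas.aestronglyMeasurable (ae_of_all _ fun y => ?_)
  rw [Real.norm_eq_abs, abs_of_nonneg (h.nonneg y)]
  refine (h.le y).trans ?_
  exact le_abs_self _

lemma Dens.norm_le {U : Set E3} (hUm : MeasurableSet U) (hU : volume U ≠ ∞) {ρ : E3 → ℝ}
    (h : Dens U ρ) : ‖(h.memLp hUm hU 2).toLp ρ‖ ≤
      ‖(memLp_indicator_const 2 hUm (1:ℝ) (Or.inr hU) :
        MemLp (U.indicator (fun _ => (1:ℝ))) 2 (volume : Measure E3)).toLp _‖ := by
  apply Lp.norm_le_norm_of_ae_le
  filter_upwards [(h.memLp hUm hU 2).coeFn_toLp, MemLp.coeFn_toLp (memLp_indicator_const 2 hUm (1:ℝ) (Or.inr hU) :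
        MemLp (U.indicator (fun _ => (1:ℝ))) 2 (volume : Measure E3))] with y h1 h2
  rw [h1, h2, Real.norm_eq_abs, abs_of_nonneg (h.nonneg y)]
  exact (h.le y).trans (le_abs_self _)

/-- weak sequential compactness of the set of densities -/
theorem weak_compact {U : Set E3} (hUm : MeasurableSet U) (hU : volume U ≠ ∞) {ρ : ℕ → E3 → ℝ}
    (h : ∀ n, Dens U (ρ n)) :
    ∃ (τ : E3 → ℝ) (φ : ℕ → ℕ), Dens U τ ∧ StrictMono φ ∧
      ∀ f : E3 → ℝ, MemLp f 2 volume →
        Tendsto (fun n => ∫ y, ρ (φ n) y * f y) atTop (𝓝 (∫ y, τ y * f y)) := by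
  have : Fact ((1:ℝ≥0∞) ≤ 2) := ⟨by norm_num⟩
  have : Fact ((2:ℝ≥0∞) ≠ ∞) := ⟨by norm_num⟩
  set H := Lp ℝ 2 (volume : Measure E3) with hH
  set C : ℝ := ‖(memLp_indicator_const 2 hUm (1:ℝ) (Or.inr hU) :
        MemLp (U.indicator (fun _ => (1:ℝ))) 2 (volume : Measure E3)).toLp _‖ with hC
  set ξ : ℕ → H := fun n => ((h n).memLp hUm hU 2).toLp (ρ n) with hξ
  have hξn : ∀ n, ‖ξ n‖ ≤ C := fun n => (h n).norm_le hUm hU
  set Φ : ℕ → WeakDual ℝ H := fun n => StrongDual.toWeakDual (InnerProductSpace.toDual ℝ H (ξ n)) with hΦ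
  have hmem : ∀ n, Φ n ∈ WeakDual.toStrongDual ⁻¹' Metric.closedBall (0 : StrongDual ℝ H) C := by
    intro n
    rw [mem_preimage, mem_closedBall_zero_iff]
    show ‖InnerProductSpace.toDual ℝ H (ξ n)‖ ≤ C
    rw [LinearIsometryEquiv.norm_map]
    exact hξn n
  obtain ⟨Λ, -, φ, hφ, hlim⟩ := WeakDual.isSeqCompact_closedBall ℝ H 0 C hmem
  set η : H := (InnerProductSpace.toDual ℝ H).symm (WeakDual.toStrongDual Λ) with hη
  have hlim2 : ∀ g : H, Tendsto (fun n => ⟪ξ (φ n), g⟫) atTop (𝓝 ⟪η, g⟫) := by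
    intro g
    have h1 := (WeakDual.eval_continuous (𝕜 := ℝ) g).continuousAt.tendsto.comp hlim
    have h2 : ∀ n, (Φ n) g = ⟪ξ n, g⟫ := by
      intro n
      show (InnerProductSpace.toDual ℝ H (ξ n)) g = _
      rw [InnerProductSpace.toDual_apply_apply]
    have h3 : Λ g = ⟪η, g⟫ := by
      rw [hη, InnerProductSpace.toDual_symm_apply]
      rfl
    rw [h3] at h1
    refine h1.congr fun n => ?_
    exact h2 (φ n)
  have hlim3 : ∀ f : E3 → ℝ, MemLp f 2 volume →
        Tendsto (fun n => ∫ y, ρ (φ n) y * f y) atTop (𝓝 (∫ y, η y * f y)) := by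
    intro f hf
    have h1 := hlim2 (hf.toLp f)
    have h2 : ∀ n, ⟪ξ n, hf.toLp f⟫ = ∫ y, ρ n y * f y := by
      intro n
      rw [L2.inner_def]
      apply integral_congr_ae
      filter_upwards [((h n).memLp hUm hU 2).coeFn_toLp, hf.coeFn_toLp] with y h3 h4
      rw [h3, h4]
      simp [mul_comm]
    have h3 : ⟪η, hf.toLp f⟫ = ∫ y, η y * f y := by
      rw [L2.inner_def]
      apply integral_congr_ae
      filter_upwards [hf.coeFn_toLp] with y h4
      rw [h4]
      simp [mul_comm]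
    rw [h3] at h1
    refine h1.congr fun n => h2 (φ n)
  have hηm : AEStronglyMeasurable η volume := Lp.aestronglyMeasurable η
  have hηi : ∀ s, MeasurableSet s → volume s < ∞ → IntegrableOn (fun y => η y) s volume := by
    intro s _ hs
    exact integrableOn_Lp_of_measure_ne_top η (by norm_num) hs.ne
  -- set integrals
  have hset : ∀ s, MeasurableSet s → volume s < ∞ →
      Tendsto (fun n => ∫ y in s, ρ (φ n) y) atTop (𝓝 (∫ y in s, η y)) := by
    intro s hsm hs
    have h1 := hlim3 (s.indicator (fun _ => (1:ℝ))) (memLp_indicator_const 2 hsm 1 (Or.inr hs.ne))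
    have h2 : ∀ g : E3 → ℝ, ∫ y, g y * s.indicator (fun _ => (1:ℝ)) y = ∫ y in s, g y := by
      intro g
      rw [← integral_indicator hsm]
      congr 1
      ext y
      by_cases hy : y ∈ s
      · simp [hy]
      · simp [hy]
    simp_rw [h2] at h1
    exact h1
  have hnn : 0 ≤ᵐ[volume] fun y => η y := by
    apply ae_nonneg_of_forall_setIntegral_nonneg_of_sigmaFinite hηi
    intro s hsm hs
    apply ge_of_tendsto' (hset s hsm hs)
    intro n
    exact setIntegral_nonneg hsm fun y _ => (h (φ n)).nonneg y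
  have hUi : ∀ s, MeasurableSet s → volume s < ∞ → IntegrableOn (U.indicator (fun _ => (1:ℝ))) s volume := by
    intro s _ _
    exact ((integrable_indicator_iff hUm).2 (integrableOn_const hU)).integrableOn
  have hle : 0 ≤ᵐ[volume] fun y => U.indicator (fun _ => (1:ℝ)) y - η y := by
    apply ae_nonneg_of_forall_setIntegral_nonneg_of_sigmaFinite
    · intro s hsm hs
      exact (hUi s hsm hs).sub (hηi s hsm hs)
    intro s hsm hs
    rw [integral_sub (hUi s hsm hs) (hηi s hsm hs), sub_nonneg]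
    apply le_of_tendsto' (hset s hsm hs)
    intro n
    apply setIntegral_mono_on (memLp_one_iff_integrable.1 ((h (φ n)).memLp hUm hU 1)).integrableOn
      (hUi s hsm hs) hsm
    intro y _
    exact (h (φ n)).le y
  refine ⟨U.indicator (fun y => max 0 (min 1 (hηm.mk η y))), φ, ⟨?_, ?_, ?_⟩, hφ, ?_⟩
  · apply Measurable.indicator _ hUm
    have := hηm.stronglyMeasurable_mk.measurable
    fun_prop
  · intro y
    apply indicator_nonneg
    intro y _
    exact le_max_left _ _
  · intro y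
    by_cases hy : y ∈ U
    · rw [indicator_of_mem hy, indicator_of_mem hy]
      simp
    · rw [indicator_of_notMem hy, indicator_of_notMem hy]
  · intro f hf
    have h1 := hlim3 f hf
    have h2 : ∫ y, η y * f y = ∫ y, (U.indicator (fun y => max 0 (min 1 (hηm.mk η y))) y) * f y := by
      apply integral_congr_ae
      filter_upwards [hηm.ae_eq_mk, hnn, hle] with y h3 h4 h5
      simp only [Pi.zero_apply] at h4 h5
      congr 1
      by_cases hy : y ∈ U
      · rw [indicator_of_mem hy] at h5 ⊢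
        rw [← h3, min_eq_right (by linarith), max_eq_right h4]
      · rw [indicator_of_notMem hy] at h5 ⊢
        linarith
    rw [← h2]
    exact h1

end Run7.h81.Hollow
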